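import Pool.Agent.Work.MP_c9932b_sb.Interface

set_option autoImplicit false

namespace Pool.SBM.helper12

theorem stmt_RUN : Stmt_RUN := by
  intro n0 pr
  induction pr using List.reverseRecOn with
  | nil =>
    intro _
    refine ⟨1, ?_⟩
    intro R _ _ _ w M hM hw
    refine ⟨w, fun _ _ => rfl, ?_, ?_⟩
    · intro k hk; simp at hk
    · intro k hk
      simp only [List.length_nil, Nat.add_zero] at hk
      simpa using hw k hk
  | append_singleton pr ins ih =>
    intro hWF
    have hWF' : WF n0 pr := by
      intro k hk
      have h := hWF k (by simp only [List.length_append, List.length_singleton]; omega)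
      rw [List.getElem_append_left hk] at h
      exact h
    obtain ⟨D, hD⟩ := ih hWF'
    refine ⟨2 * D + 1, ?_⟩
    intro R _ _ _ w M hM hw
    obtain ⟨V, hV1, hV2, hV3⟩ := hD R w M hM hw
    have hins : ins.1 < n0 + pr.length ∧ ins.2.1 < n0 + pr.length ∧
        ins.2.2 < n0 + pr.length := by
      have h := hWF pr.length (by simp)
      simpa using h
    obtain ⟨h1, h2, h3⟩ := hins
    refine ⟨Function.update V (n0 + pr.length) (V ins.1 * V ins.2.1 + V ins.2.2), ?_, ?_, ?_⟩
    · intro k hk
      rw [Function.update_of_ne (by omega)]
      exact hV1 k hk
    · intro k hk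
      have hk' : k < pr.length ∨ k = pr.length := by
        simp only [List.length_append, List.length_singleton] at hk; omega
      rcases hk' with hk' | hk'
      · have hw' := hWF' k hk'
        rw [List.getElem_append_left hk']
        rw [Function.update_of_ne (by omega), Function.update_of_ne (by omega),
          Function.update_of_ne (by omega), Function.update_of_ne (by omega)]
        exact hV2 k hk'
      · subst hk'
        rw [Function.update_self]
        simp only [List.getElem_append_right (le_refl _), Nat.sub_self, List.getElem_cons_zero]
        rw [Function.update_of_ne (by omega), Function.update_of_ne (by omega),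
          Function.update_of_ne (by omega)]
    · intro k hk
      have hM1 : (1 : R) ≤ M := le_trans one_le_two hM
      have hMD : (1 : R) ≤ M ^ D := one_le_pow₀ hM1
      have hk' : k < n0 + pr.length ∨ k = n0 + pr.length := by
        simp only [List.length_append, List.length_singleton] at hk; omega
      rcases hk' with hk' | hk'
      · rw [Function.update_of_ne (by omega)]
        refine ⟨(hV3 k hk').1, le_trans (hV3 k hk').2 ?_⟩
        exact pow_le_pow_right₀ hM1 (by omega)
      · subst hk'
        rw [Function.update_self]
        obtain ⟨a0, a1⟩ := hV3 _ h1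
        obtain ⟨b0, b1⟩ := hV3 _ h2
        obtain ⟨c0, c1⟩ := hV3 _ h3
        refine ⟨by positivity, ?_⟩
        have e : M ^ (2 * D + 1) = M * (M ^ D * M ^ D) := by ring
        have hab : V ins.1 * V ins.2.1 ≤ M ^ D * M ^ D := by
          apply mul_le_mul a1 b1 b0; positivity
        have hc : V ins.2.2 ≤ M ^ D * M ^ D := le_trans c1 (by nlinarith)
        rw [e]
        have hpos : (0 : R) ≤ M ^ D * M ^ D := by positivity
        nlinarith

end Pool.SBM.helper12
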