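import Pool.Agent.Work.MP_c9932b_sb.Interface

set_option autoImplicit false

namespace Pool.SBM.helper12

lemma los_le {A : ℕ → Type} [∀ n, CommRing (A n)] [∀ n, LinearOrder (A n)]
    {R : Type} [CommRing R] [LinearOrder R] (mk : (∀ n, A n) →+* R)
    (los : ∀ (φ : D0) (v : ℕ → ∀ n, A n),
        φ.eval (fun i => mk (v i)) ↔ ∀ᶠ n in (Filter.hyperfilter ℕ : Filter ℕ),
          φ.eval (fun i => v i n)) (a b : ∀ n, A n) :
    mk a ≤ mk b ↔ ∀ᶠ n in (Filter.hyperfilter ℕ : Filter ℕ), a n ≤ b n := by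
  have h := los (D0.le (.var 0) (.var 1)) (push a (fun _ => b))
  exact h

lemma core (hCUT : Stmt_CUT) (φ : D0) (n l : ℕ) (χ : Opn)
    (H : ∀ (R : Type) [CommRing R] [LinearOrder R] [IsStrictOrderedRing R], IDelta0 R → BSigma1 R →
      ∀ x : Fin n → R, (∀ i, 0 ≤ x i) →
        (φ.eval (ev x) ↔ ∃ z : Fin l → R, (∀ i, 0 ≤ z i) ∧ χ.eval (cat x z)))
    (R : Type) [CommRing R] [LinearOrder R] [IsStrictOrderedRing R] (hR : IDelta0 R)
    (c ω : R) (hc : 2 ≤ c) (hω : ∀ k : ℕ, c ^ k ≤ ω) (x : Fin n → R)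
    (hx : ∀ i, 0 ≤ x i ∧ x i ≤ c) :
    (φ.eval (ev x) → ∃ k : ℕ, ∃ z : Fin l → R, (∀ i, 0 ≤ z i ∧ z i ≤ c ^ k) ∧
      χ.eval (cat x z)) ∧
    (∀ z : Fin l → R, (∀ i, 0 ≤ z i ∧ z i ≤ c) → χ.eval (cat x z) → φ.eval (ev x)) := by
  obtain ⟨I, iI1, iI2, iI3, f, hf, himg, hI1, hI2, habs⟩ := hCUT R hR c ω hc hω
  have hlift : ∀ y : R, 0 ≤ y → y ≤ c → ∃ a : I, f a = y ∧ 0 ≤ a := by
    intro y hy0 hyc
    obtain ⟨a, ha⟩ := (himg y).1 ⟨1, by rw [abs_of_nonneg hy0, pow_one]; exact hyc⟩
    refine ⟨a, ha, ?_⟩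
    have : f 0 ≤ f a := by rw [map_zero, ha]; exact hy0
    exact hf.le_iff_le.1 this
  choose xI hxI using fun i => hlift (x i) (hx i).1 (hx i).2
  have hev : (fun i => f (ev xI i)) = ev x := by
    funext i
    unfold ev
    split_ifs with h
    · exact (hxI _).1
    · exact map_zero f
  have hcat : ∀ z : Fin l → I, (fun i => f (cat xI z i)) = cat x (fun i => f (z i)) := by
    intro z
    funext i
    unfold cat ev
    split_ifs with h h'
    · exact (hxI _).1
    · rfl
    · exact map_zero f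
  have hφ := habs φ (ev xI)
  rw [hev] at hφ
  have hχ : ∀ z : Fin l → I, χ.eval (cat xI z) ↔ χ.eval (cat x (fun i => f (z i))) := by
    intro z
    have h := habs (.opn χ) (cat xI z)
    rw [hcat] at h
    exact h
  have hH := H I hI1 hI2 xI (fun i => (hxI i).2)
  constructor
  · intro h
    obtain ⟨z, hz0, hz⟩ := hH.1 (hφ.2 h)
    have hb : ∀ i, ∃ k : ℕ, |f (z i)| ≤ c ^ k := fun i => (himg _).2 ⟨z i, rfl⟩
    choose k hk using hb
    refine ⟨∑ i, k i, fun i => f (z i), fun i => ⟨?_, ?_⟩, (hχ z).1 hz⟩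
    · have : f 0 ≤ f (z i) := hf.monotone (hz0 i)
      rwa [map_zero] at this
    · refine le_trans (le_abs_self _) (le_trans (hk i) ?_)
      exact pow_le_pow_right₀ (le_trans one_le_two hc)
        (Finset.single_le_sum (f := k) (fun _ _ => Nat.zero_le _) (Finset.mem_univ i))
  · intro z hz hzc
    choose zI hzI using fun i => hlift (z i) (hz i).1 (hz i).2
    have hz' : (fun i => f (zI i)) = z := by funext i; exact (hzI i).1
    have h1 : χ.eval (cat xI zI) := by rw [hχ, hz']; exact hzc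
    exact hφ.1 (hH.2 ⟨zI, fun i => (hzI i).2, h1⟩)

lemma sum_nonneg' {R : Type} [CommRing R] [LinearOrder R] [IsStrictOrderedRing R] {n : ℕ}
    (x : Fin n → R) (hx : ∀ i, 0 ≤ x i) : 0 ≤ ∑ j, x j := Finset.sum_nonneg fun i _ => hx i

theorem stmt_PAR (hULT : Stmt_ULT) (hCUT : Stmt_CUT) : Stmt_PAR := by
  intro φ n l χ H
  have part1 : ∃ m : ℕ, ∀ (R : Type) [CommRing R] [LinearOrder R] [IsStrictOrderedRing R],
      IDelta0 R → ∀ x : Fin n → R, (∀ i, 0 ≤ x i) →
        φ.eval (ev x) → ∃ z : Fin l → R, (∀ i, 0 ≤ z i ∧ z i ≤ (2 + ∑ j, x j) ^ m) ∧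
          χ.eval (cat x z) := by
    by_contra hcon
    have hcon' : ∀ m : ℕ, ∃ (R : Type) (_ : CommRing R) (_ : LinearOrder R)
        (_ : IsStrictOrderedRing R), IDelta0 R ∧ ∃ x : Fin n → R, (∀ i, 0 ≤ x i) ∧
        φ.eval (ev x) ∧ ∀ z : Fin l → R, (∀ i, 0 ≤ z i ∧ z i ≤ (2 + ∑ j, x j) ^ m) →
          ¬ χ.eval (cat x z) := by
      intro m
      by_contra hm
      apply hcon
      refine ⟨m, ?_⟩
      intro R i1 i2 i3 hR x hx hφ
      by_contra hz
      apply hm
      refine ⟨R, i1, i2, i3, hR, x, hx, hφ, ?_⟩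
      intro z hz1 hz2
      exact hz ⟨z, hz1, hz2⟩
    choose A j1 j2 j3 hA x hx hφx hno using hcon'
    obtain ⟨R, i1, i2, i3, mk, hsurj, hR, los⟩ := hULT A hA
    set c : R := mk (fun m => 2 + ∑ j, x m j) with hc
    set ω : R := mk (fun m => (2 + ∑ j, x m j) ^ m) with hω
    have hle := los_le mk los
    have hmk2 : (2 : R) = mk (fun _ => 2) := by
      have : (fun _ => 2 : ∀ m, A m) = 2 := rfl
      rw [this, map_ofNat]
    have hmk0 : (0 : R) = mk (fun _ => 0) := by
      have : (fun _ => 0 : ∀ m, A m) = 0 := rfl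
      rw [this, map_zero]
    have hc2 : 2 ≤ c := by
      rw [hmk2, hc, hle]
      exact Filter.Eventually.of_forall fun m => by
        have := sum_nonneg' (x m) (hx m)
        linarith
    have hcpow : ∀ k : ℕ, c ^ k = mk (fun m => (2 + ∑ j, x m j) ^ k) := by
      intro k
      rw [hc, ← map_pow]
      rfl
    have hcω : ∀ k : ℕ, c ^ k ≤ ω := by
      intro k
      rw [hcpow, hω, hle]
      have h1 : ∀ᶠ m in Filter.atTop, k ≤ m := Filter.eventually_ge_atTop k
      have h2 : ∀ᶠ m in (Filter.hyperfilter ℕ : Filter ℕ), k ≤ m :=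
        Filter.Eventually.filter_mono Nat.hyperfilter_le_atTop h1
      filter_upwards [h2] with m hm
      have h0 := sum_nonneg' (x m) (hx m)
      exact pow_le_pow_right₀ (by linarith) hm
    set x' : Fin n → R := fun i => mk (fun m => x m i) with hx'
    have hx'b : ∀ i, 0 ≤ x' i ∧ x' i ≤ c := by
      intro i
      constructor
      · rw [hmk0, hx']
        simp only
        rw [hle]
        exact Filter.Eventually.of_forall fun m => hx m i
      · rw [hx', hc]
        simp only
        rw [hle]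
        refine Filter.Eventually.of_forall fun m => ?_
        have h0 : x m i ≤ ∑ j, x m j :=
          Finset.single_le_sum (f := x m) (fun j _ => hx m j) (Finset.mem_univ i)
        linarith
    have hevx : (fun i => mk ((fun (i : ℕ) (m : ℕ) => ev (x m) i) i)) = ev x' := by
      funext i
      unfold ev
      by_cases h : i < n
      · simp only [h, dif_pos]; rfl
      · simp only [h, dif_neg, not_false_eq_true]; exact hmk0.symm
    have hφ' : φ.eval (ev x') := by
      rw [← hevx, los]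
      exact Filter.Eventually.of_forall fun m => hφx m
    obtain ⟨k, z, hz, hχz⟩ := (core hCUT φ n l χ H R hR c ω hc2 hcω x' hx'b).1 hφ'
    choose zf hzf using fun i => hsurj (z i)
    have hcatx : (fun i => mk ((fun (i : ℕ) (m : ℕ) => cat (x m) (fun q => zf q m) i) i))
        = cat x' z := by
      funext i
      unfold cat ev
      by_cases h : i < n
      · simp only [h, dif_pos]; rfl
      · simp only [h, dif_neg, not_false_eq_true]
        by_cases h' : i - n < l
        · simp only [h', dif_pos]; exact hzf _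
        · simp only [h', dif_neg, not_false_eq_true]; exact hmk0.symm
    have hE1 : ∀ᶠ m in (Filter.hyperfilter ℕ : Filter ℕ),
        χ.eval (cat (x m) (fun q => zf q m)) := by
      have h := (los (.opn χ) (fun (i : ℕ) (m : ℕ) => cat (x m) (fun q => zf q m) i)).1
      rw [hcatx] at h
      exact h hχz
    have hE2 : ∀ᶠ m in (Filter.hyperfilter ℕ : Filter ℕ), ∀ i, 0 ≤ zf i m := by
      rw [Filter.eventually_all]
      intro i
      have h := (hz i).1
      rw [← hzf i, hmk0, hle] at h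
      exact h
    have hE3 : ∀ᶠ m in (Filter.hyperfilter ℕ : Filter ℕ), ∀ i,
        zf i m ≤ (2 + ∑ j, x m j) ^ k := by
      rw [Filter.eventually_all]
      intro i
      have h := (hz i).2
      rw [← hzf i, hcpow, hle] at h
      exact h
    have hE4 : ∀ᶠ m in (Filter.hyperfilter ℕ : Filter ℕ), k ≤ m :=
      Filter.Eventually.filter_mono Nat.hyperfilter_le_atTop
        (Filter.eventually_ge_atTop k)
    obtain ⟨m, h1, h2, h3, h4⟩ := (hE1.and (hE2.and (hE3.and hE4))).exists
    refine hno m (fun q => zf q m) (fun i => ⟨h2 i, le_trans (h3 i) ?_⟩) h1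
    have h0 := sum_nonneg' (x m) (hx m)
    exact pow_le_pow_right₀ (by linarith) h4
  obtain ⟨m, hm⟩ := part1
  refine ⟨m, ?_⟩
  intro R i1 i2 i3 hR x hx
  refine ⟨hm R hR x hx, ?_⟩
  rintro ⟨z, hz, hχz⟩
  obtain ⟨R', k1, k2, k3, mk, hsurj, hR', los⟩ := hULT (fun _ => R) (fun _ => hR)
  have hle := los_le mk los
  set c0 : R := 2 + ∑ j, x j + ∑ j, z j with hc0
  have hsx := sum_nonneg' x hx
  have hsz := sum_nonneg' z hz
  have hc0' : 2 ≤ c0 := by rw [hc0]; linarith
  have hmk0 : (0 : R') = mk (fun _ => 0) := by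
    have : (fun _ => 0 : ∀ _ : ℕ, R) = 0 := rfl
    rw [this, map_zero]
  have hmk2 : (2 : R') = mk (fun _ => 2) := by
    have : (fun _ => 2 : ∀ _ : ℕ, R) = 2 := rfl
    rw [this, map_ofNat]
  have hcc : 2 ≤ mk (fun _ => c0) := by
    rw [hmk2, hle]
    exact Filter.Eventually.of_forall fun _ => hc0'
  have hpow : ∀ k : ℕ, (mk (fun _ => c0)) ^ k ≤ mk (fun m => c0 ^ m) := by
    intro k
    rw [← map_pow]
    have e : ((fun _ => c0 : ∀ _ : ℕ, R) ^ k) = fun _ => c0 ^ k := rfl
    rw [e, hle]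
    have h2 : ∀ᶠ m in (Filter.hyperfilter ℕ : Filter ℕ), k ≤ m :=
      Filter.Eventually.filter_mono Nat.hyperfilter_le_atTop
        (Filter.eventually_ge_atTop k)
    filter_upwards [h2] with m hm'
    exact pow_le_pow_right₀ (le_trans one_le_two hc0') hm'
  have hxb : ∀ i : Fin n, 0 ≤ mk (fun _ => x i) ∧ mk (fun _ => x i) ≤ mk (fun _ => c0) := by
    intro i
    constructor
    · rw [hmk0, hle]; exact Filter.Eventually.of_forall fun _ => hx i
    · rw [hle]
      refine Filter.Eventually.of_forall fun _ => ?_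
      have h0 : x i ≤ ∑ j, x j :=
        Finset.single_le_sum (f := x) (fun j _ => hx j) (Finset.mem_univ i)
      rw [hc0]; linarith
  have hzb : ∀ i : Fin l, 0 ≤ mk (fun _ => z i) ∧ mk (fun _ => z i) ≤ mk (fun _ => c0) := by
    intro i
    constructor
    · rw [hmk0, hle]; exact Filter.Eventually.of_forall fun _ => hz i
    · rw [hle]
      refine Filter.Eventually.of_forall fun _ => ?_
      have h0 : z i ≤ ∑ j, z j :=
        Finset.single_le_sum (f := z) (fun j _ => hz j) (Finset.mem_univ i)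
      rw [hc0]; linarith
  have hcatx : (fun i => mk ((fun (i : ℕ) (_ : ℕ) => cat x z i) i))
      = cat (fun i => mk (fun _ => x i)) (fun i => mk (fun _ => z i)) := by
    funext i
    unfold cat ev
    by_cases h : i < n
    · simp only [h, dif_pos]
    · simp only [h, dif_neg, not_false_eq_true]
      by_cases h' : i - n < l
      · simp only [h', dif_pos]
      · simp only [h', dif_neg, not_false_eq_true]; exact hmk0.symm
  have hevx : (fun i => mk ((fun (i : ℕ) (_ : ℕ) => ev x i) i))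
      = ev (fun i => mk (fun _ => x i)) := by
    funext i
    unfold ev
    by_cases h : i < n
    · simp only [h, dif_pos]
    · simp only [h, dif_neg, not_false_eq_true]; exact hmk0.symm
  have hχ' : χ.eval (cat (fun i => mk (fun _ => x i)) (fun i => mk (fun _ => z i))) := by
    have h := (los (.opn χ) (fun (i : ℕ) (_ : ℕ) => cat x z i)).2
    rw [hcatx] at h
    exact h (Filter.Eventually.of_forall fun _ => hχz)
  have hφ' := (core hCUT φ n l χ H R' hR' _ _ hcc hpow _ hxb).2 _ hzb hχ'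
  rw [← hevx, los] at hφ'
  obtain ⟨_, h⟩ := hφ'.exists
  exact h

end Pool.SBM.helper12
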